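import Pool.Agent.R331.RS.Det

set_option autoImplicit false

namespace Pool.Agent.Results.MP_bc03d6_nt.RandomLaw

open MeasureTheory Filter Topology Set
open scoped ENNReal
open Pool.Agent.R331.RS

/-- the points of the unit cube approximated infinitely often (indices start at `0`) -/
def W {n : ℕ} (ω : ℕ → Fin n → ℝ) (ψ : Fin n → ℕ → ℝ) : Set (Fin n → ℝ) :=
  {x | x ∈ Icc (0 : Fin n → ℝ) 1 ∧ {j : ℕ | ∀ i, |x i - ω j i| < ψ i j}.Infinite}

section aux

variable {n : ℕ}

/-- smallest dyadic exponent -/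
theorem exists_exp {t : ℝ} (ht : 0 < t) : ∃ a : ℕ, (1/2:ℝ)^a ≤ t ∧ min 1 t ≤ 2 * (1/2:ℝ)^a := by
  classical
  have hex : ∃ a : ℕ, (1/2:ℝ)^a ≤ t := by
    obtain ⟨a, ha⟩ := exists_pow_lt_of_lt_one ht (by norm_num : (1/2:ℝ) < 1)
    exact ⟨a, ha.le⟩
  refine ⟨Nat.find hex, Nat.find_spec hex, ?_⟩
  rcases Nat.eq_zero_or_pos (Nat.find hex) with h | h
  · rw [h]
    have := min_le_left 1 t
    norm_num
  · have h1 := Nat.find_min hex (m := Nat.find hex - 1) (by omega)
    push Not at h1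
    have h2 : (1/2:ℝ)^(Nat.find hex) = (1/2)^(Nat.find hex - 1) * (1/2) := by
      rw [← pow_succ]
      congr 1
      omega
    have := min_le_right 1 t
    rw [h2]
    linarith

theorem final {ω : ℕ → Fin n → ℝ} (hn : 1 ≤ n) (hω : Good ω) (ψ : Fin n → ℕ → ℝ)
    (hψ : ∀ i, Antitone (ψ i)) (hpos : ∀ i j, 0 < ψ i j) (hdiv : ¬ Summable (fun j => ∏ i, ψ i j)) :
    ∀ᵐ x ∂(lam n), {j : ℕ | ∀ i, |x i - ω j i| < ψ i j}.Infinite := by
  classical
  choose a0 ha0 ha0' using fun (k : ℕ) (i : Fin n) => exists_exp (hpos i (2^(k+1)))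
  set i0 : Fin n := ⟨0, hn⟩ with hi0
  set a : ℕ → Fin n → ℕ := fun k i => a0 k i + (if i = i0 then k - ∑ i, a0 k i else 0) with ha
  have hsum : ∀ k, ∑ i, a k i = max k (∑ i, a0 k i) := by
    intro k
    simp only [ha]
    rw [Finset.sum_add_distrib, Finset.sum_ite_eq' Finset.univ i0]
    simp only [Finset.mem_univ, if_true]
    omega
  have hva : ∀ k, 2^k * vv (a k) = min 1 (2^k * vv (a0 k)) := by
    intro k
    unfold vv
    rw [hsum]
    rcases le_total k (∑ i, a0 k i) with h | h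
    · rw [max_eq_right h, min_eq_right]
      have : (1/2:ℝ)^(∑ i, a0 k i) ≤ (1/2)^k := pow_le_pow_of_le_one (by norm_num) (by norm_num) h
      calc (2:ℝ)^k * (1/2)^(∑ i, a0 k i) ≤ 2^k * (1/2)^k := by gcongr
        _ = 1 := by rw [← mul_pow]; norm_num
    · rw [max_eq_left h, min_eq_left]
      · rw [← mul_pow]; norm_num
      · have : (1/2:ℝ)^k ≤ (1/2)^(∑ i, a0 k i) := pow_le_pow_of_le_one (by norm_num) (by norm_num) h
        calc (1:ℝ) = 2^k * (1/2)^k := by rw [← mul_pow]; norm_num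
          _ ≤ _ := by gcongr
  -- divergence of the block sums
  have hd1 : ¬ Summable (fun k : ℕ => 2^k * vv (a0 k)) := by
    intro hs
    apply hdiv
    have hf0 : ∀ j, 0 ≤ ∏ i, ψ i j := fun j => Finset.prod_nonneg fun i _ => (hpos i j).le
    rw [← summable_condensed_iff_of_nonneg hf0 (fun m m' _ hmm' =>
      Finset.prod_le_prod (fun i _ => (hpos i m').le) fun i _ => hψ i hmm')]
    rw [← summable_nat_add_iff 1]
    set C : ℝ := ∏ i, (2 * max 1 (ψ i 0)) with hC
    refine Summable.of_nonneg_of_le (fun k => mul_nonneg (by positivity) (hf0 _)) (fun k => ?_) (hs.mul_left (2 * C))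
    have h1 : ∏ i, ψ i (2^(k+1)) ≤ C * vv (a0 k) := by
      unfold vv
      rw [hC, ← Finset.prod_pow_eq_pow_sum, ← Finset.prod_mul_distrib]
      apply Finset.prod_le_prod (fun i _ => (hpos i _).le)
      intro i _
      have h2 := ha0' k i
      have h3 : ψ i (2^(k+1)) ≤ ψ i 0 := hψ i (Nat.zero_le _)
      have h4 : (1:ℝ) ≤ max 1 (ψ i 0) := le_max_left _ _
      have h5 : ψ i 0 ≤ max 1 (ψ i 0) := le_max_right _ _
      have h6 := hpos i (2^(k+1))
      have h7 : ψ i (2^(k+1)) ≤ max 1 (ψ i 0) * min 1 (ψ i (2^(k+1))) := by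
        rcases le_total 1 (ψ i (2^(k+1))) with h | h
        · rw [min_eq_left h]
          linarith
        · rw [min_eq_right h]
          nlinarith
      have h8 : (0:ℝ) < max 1 (ψ i 0) := by linarith
      calc ψ i (2^(k+1)) ≤ max 1 (ψ i 0) * min 1 (ψ i (2^(k+1))) := h7
        _ ≤ max 1 (ψ i 0) * (2 * (1/2:ℝ)^(a0 k i)) := by gcongr
        _ = _ := by ring
    calc (2:ℝ)^(k+1) * ∏ i, ψ i (2^(k+1)) ≤ 2^(k+1) * (C * vv (a0 k)) := by gcongr
      _ = 2 * C * (2^k * vv (a0 k)) := by ring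
  have hd2 : ¬ Summable (fun k : ℕ => 2^k * vv (a k)) := by
    intro hs
    apply hd1
    have h1 := hs.tendsto_atTop_zero
    have h2 := (tendsto_order.mp h1).2 1 one_pos
    obtain ⟨k₁, hk₁⟩ := eventually_atTop.mp h2
    rw [← summable_nat_add_iff k₁] at hs ⊢
    refine hs.congr fun k => ?_
    have h3 := hk₁ (k + k₁) (by omega)
    rw [hva] at h3 ⊢
    rw [min_lt_iff] at h3
    rcases h3 with h3 | h3
    · exact absurd h3 (lt_irrefl _)
    · rw [min_eq_right h3.le]
  have hd3 : ¬ Summable ({k | a k ∈ SS n k}.indicator (fun k => pp k (a k))) := by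
    intro hs
    apply hd2
    have h1 : Summable (fun k : ℕ => 1/((k:ℝ)+1)^2) := by
      have := (summable_nat_add_iff 1).mpr (Real.summable_one_div_nat_pow.mpr (by norm_num : 1 < 2))
      refine this.congr fun k => ?_
      push_cast
      rfl
    refine Summable.of_nonneg_of_le (fun k => mul_nonneg (by positivity) (vv_pos _).le) (fun k => ?_)
      ((hs.mul_left 2).add h1)
    by_cases h : a k ∈ SS n k
    · rw [Set.indicator_of_mem (show k ∈ {k | a k ∈ SS n k} from h)]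
      have h2 := pp_lower (SS_spec h).1
      have h3 : (0:ℝ) ≤ 1/((k:ℝ)+1)^2 := by positivity
      linarith
    · rw [Set.indicator_of_notMem (show k ∉ {k | a k ∈ SS n k} from h)]
      have h4 : 2^k * vv (a k) ≤ 1 := by
        rw [hva]
        exact min_le_left _ _
      have h5 : 2^k * vv (a k) < 1/((k:ℝ)+1)^2 := by
        by_contra hcon
        push Not at hcon
        exact h (mem_SS h4 hcon)
      linarith
  filter_upwards [hit_frequently hω a hd3] with x hx
  rw [Nat.frequently_atTop_iff_infinite] at hx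
  intro hfin
  obtain ⟨M, hM⟩ := hfin.bddAbove
  obtain ⟨k, ⟨_, j, hj, hκ⟩, hk⟩ := hx.exists_gt M
  have hjk : 2^k ≤ j ∧ j < 2^(k+1) := by
    unfold JJ at hj
    rwa [Finset.mem_Ico] at hj
  have hjmem : j ∈ {j : ℕ | ∀ i, |x i - ω j i| < ψ i j} := by
    intro i
    have h1 : ⌊ω j i * 2^(a k i)⌋ = ⌊x i * 2^(a k i)⌋ := congrFun hκ i
    have h2 := Int.abs_sub_lt_one_of_floor_eq_floor h1
    have h3 : (0:ℝ) < 2^(a k i) := by positivity
    have h4 : |x i - ω j i| < (1/2:ℝ)^(a k i) := by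
      rw [← sub_mul, abs_mul, abs_of_pos h3] at h2
      rw [abs_sub_comm, div_pow, one_pow, lt_div_iff₀ h3]
      exact h2
    have h5 : (1/2:ℝ)^(a k i) ≤ (1/2)^(a0 k i) :=
      pow_le_pow_of_le_one (by norm_num) (by norm_num) (Nat.le_add_right _ _)
    have h6 : ψ i (2^(k+1)) ≤ ψ i j := hψ i hjk.2.le
    calc |x i - ω j i| < (1/2:ℝ)^(a k i) := h4
      _ ≤ (1/2)^(a0 k i) := h5
      _ ≤ ψ i (2^(k+1)) := ha0 k i
      _ ≤ ψ i j := h6
  have h7 := hM hjmem
  have h8 : k < 2^k := Nat.lt_two_pow_self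
  omega

end aux

/-- For almost every sequence of independent uniform points of the unit cube, for all tuples of
non-increasing positive functions simultaneously: divergence implies full measure. -/
theorem result : ∀ n : ℕ, 1 ≤ n →
    IsProbabilityMeasure (volume.restrict (Icc (0 : Fin n → ℝ) 1)) ∧
    ∀ᵐ ω : ℕ → Fin n → ℝ ∂(Measure.infinitePi fun _ : ℕ => (volume.restrict (Icc (0 : Fin n → ℝ) 1))),
      ∀ ψ : Fin n → ℕ → ℝ, (∀ i, Antitone (ψ i)) → (∀ i j, 0 < ψ i j) →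
        ¬ Summable (fun j => ∏ i, ψ i j) → volume (W ω ψ) = 1 := by
  intro n hn
  refine ⟨inferInstanceAs (IsProbabilityMeasure (lam n)), ?_⟩
  have hae : ∀ᵐ ω ∂(PP (lam n)), Good ω := ae_good
  filter_upwards [hae] with ω hω ψ h1 h2 h3
  have h := final hn hω ψ h1 h2 h3
  have hvol : volume (Icc (0 : Fin n → ℝ) 1) = 1 := by
    rw [Real.volume_Icc_pi]
    simp
  have h4 : ∀ᵐ x ∂(volume.restrict (Icc (0 : Fin n → ℝ) 1)), x ∈ W ω ψ := by
    have h5 : ∀ᵐ x ∂(volume.restrict (Icc (0 : Fin n → ℝ) 1)), x ∈ Icc (0 : Fin n → ℝ) 1 :=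
      ae_restrict_mem measurableSet_Icc
    filter_upwards [h, h5] with x hx hx'
    exact ⟨hx', hx⟩
  have h6 : volume (Icc (0 : Fin n → ℝ) 1 \ W ω ψ) = 0 := by
    rw [ae_restrict_iff' measurableSet_Icc, ae_iff] at h4
    refine measure_mono_null ?_ h4
    intro x hx
    simp only [mem_ofPred_eq]
    push Not
    exact ⟨hx.1, hx.2⟩
  apply le_antisymm
  · rw [← hvol]
    exact measure_mono fun x hx => hx.1
  · calc (1:ℝ≥0∞) = volume (Icc (0 : Fin n → ℝ) 1) := hvol.symm
      _ ≤ volume (W ω ψ ∪ (Icc (0 : Fin n → ℝ) 1 \ W ω ψ)) := measure_mono fun x hx => by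
          by_cases hxW : x ∈ W ω ψ
          · exact Or.inl hxW
          · exact Or.inr ⟨hx, hxW⟩
      _ ≤ volume (W ω ψ) + volume (Icc (0 : Fin n → ℝ) 1 \ W ω ψ) := measure_union_le _ _
      _ = volume (W ω ψ) := by rw [h6, add_zero]

end Pool.Agent.Results.MP_bc03d6_nt.RandomLaw
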